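import Pool.Agent.H98.KS.Targets1

/-!
Weak type (1,1) inequality (module HL).
-/

open scoped BigOperators

namespace Pool.Agent.H65.KS

open Pool.Agent.H98.KS

theorem ks_HL : T_HL := by
  classical
  intro d S X g c hc hg hX
  suffices H : ∀ n : ℕ, ∀ X S : Finset (Fin d → ℤ), X.card = n →
      (∀ x ∈ X, ∃ R : ℕ, c * (2 * (R : ℝ) + 1) ^ d <
        ∑ y ∈ S.filter (fun y => ∀ i, |y i - x i| ≤ R), g y) →
      (X.card : ℝ) ≤ 2 ^ d / c * ∑ y ∈ S, g y from H _ X S rfl hX
  intro n
  induction n using Nat.strong_induction_on with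
  | _ n ih =>
    intro X S hn hX
    rcases X.eq_empty_or_nonempty with rfl | hne
    · rw [Finset.card_empty, Nat.cast_zero]
      exact mul_nonneg (by positivity) (Finset.sum_nonneg fun y _ => hg y)
    choose! R hR using hX
    obtain ⟨x0, hx0, hmax⟩ := X.exists_max_image R hne
    let X' := X.filter (fun x => ¬ ∀ i, |x i - x0 i| ≤ R x0 + R x)
    let S' := S.filter (fun y => ¬ ∀ i, |y i - x0 i| ≤ R x0)
    have hx0' : x0 ∉ X' := by
      intro h
      refine (Finset.mem_filter.1 h).2 fun i => ?_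
      rw [sub_self, abs_zero]
      positivity
    have hlt : X'.card < n := by
      rw [← hn]
      refine Finset.card_lt_card ⟨Finset.filter_subset _ _, fun h => hx0' (h hx0)⟩
    have h1 : (X'.card : ℝ) ≤ 2 ^ d / c * ∑ y ∈ S', g y := by
      refine ih _ hlt X' S' rfl ?_
      intro x hx
      obtain ⟨hxX, hx2⟩ := Finset.mem_filter.1 hx
      refine ⟨R x, ?_⟩
      have e : S'.filter (fun y => ∀ i, |y i - x i| ≤ R x) =
          S.filter (fun y => ∀ i, |y i - x i| ≤ R x) := by
        ext y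
        simp only [S', Finset.mem_filter]
        constructor
        · rintro ⟨⟨h1, -⟩, h3⟩
          exact ⟨h1, h3⟩
        · rintro ⟨h1, h3⟩
          refine ⟨⟨h1, fun h2 => hx2 fun i => ?_⟩, h3⟩
          have h4 := h2 i
          have h5 := h3 i
          have h6 : x i - x0 i = (y i - x0 i) - (y i - x i) := by ring
          rw [h6]
          exact (abs_sub _ _).trans (add_le_add h4 h5)
      rw [e]
      exact hR x hxX
    have h2 : ((X.filter (fun x => ∀ i, |x i - x0 i| ≤ R x0 + R x)).card : ℝ) ≤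
        2 ^ d / c * ∑ y ∈ S.filter (fun y => ∀ i, |y i - x0 i| ≤ R x0), g y := by
      have h3 : (X.filter (fun x => ∀ i, |x i - x0 i| ≤ R x0 + R x)) ⊆
          Fintype.piFinset (fun i => Finset.Icc (x0 i - 2 * (R x0 : ℤ)) (x0 i + 2 * (R x0 : ℤ))) := by
        intro x hx
        obtain ⟨hxX, hx2⟩ := Finset.mem_filter.1 hx
        rw [Fintype.mem_piFinset]
        intro i
        have h4 := hx2 i
        have h5 : (R x : ℤ) ≤ R x0 := by exact_mod_cast hmax x hxX
        rw [abs_le] at h4
        rw [Finset.mem_Icc]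
        constructor <;> linarith [h4.1, h4.2]
      have h4 := Finset.card_le_card h3
      rw [Fintype.card_piFinset] at h4
      simp only [Int.card_Icc] at h4
      have h5 : ∀ i : Fin d, (x0 i + 2 * (R x0 : ℤ) + 1 - (x0 i - 2 * (R x0 : ℤ))).toNat =
          4 * R x0 + 1 := by
        intro i
        have : x0 i + 2 * (R x0 : ℤ) + 1 - (x0 i - 2 * (R x0 : ℤ)) = ((4 * R x0 + 1 : ℕ) : ℤ) := by
          push_cast
          ring
        rw [this, Int.toNat_natCast]
      simp only [h5, Finset.prod_const, Finset.card_univ, Fintype.card_fin] at h4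
      have h6 : ((X.filter (fun x => ∀ i, |x i - x0 i| ≤ R x0 + R x)).card : ℝ) ≤
          (4 * (R x0 : ℝ) + 1) ^ d := by
        have := h4
        exact_mod_cast this
      refine h6.trans ?_
      have h7 := (hR x0 hx0).le
      have h8 : (4 * (R x0 : ℝ) + 1) ^ d ≤ (2 * (2 * (R x0 : ℝ) + 1)) ^ d := by
        refine pow_le_pow_left₀ (by positivity) (by linarith) d
      refine h8.trans ?_
      rw [mul_pow, div_mul_eq_mul_div, le_div_iff₀ hc]
      calc (2 : ℝ) ^ d * (2 * (R x0 : ℝ) + 1) ^ d * c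
          = 2 ^ d * (c * (2 * (R x0 : ℝ) + 1) ^ d) := by ring
        _ ≤ 2 ^ d * ∑ y ∈ S.filter (fun y => ∀ i, |y i - x0 i| ≤ R x0), g y :=
            mul_le_mul_of_nonneg_left h7 (by positivity)
    have h9 : (X.card : ℝ) = ((X.filter (fun x => ∀ i, |x i - x0 i| ≤ R x0 + R x)).card : ℝ) +
        (X'.card : ℝ) := by
      rw [← Nat.cast_add, Finset.card_filter_add_card_filter_not]
    have h10 : ∑ y ∈ S, g y = ∑ y ∈ S.filter (fun y => ∀ i, |y i - x0 i| ≤ R x0), g y +
        ∑ y ∈ S', g y := (Finset.sum_filter_add_sum_filter_not S _ _).symm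
    rw [h9, h10, mul_add]
    exact add_le_add h2 h1

end Pool.Agent.H65.KS
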