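import Pool.Agent.H98.KS.Targets1

/-!
`l^2` bound for the linearised maximal averages along `q Z^d` (module HLQ).
-/

open scoped BigOperators

namespace Pool.Agent.H65.KS

open Pool.Agent.H98.KS

/-- the points of the average along `q Z^d` -/
private noncomputable def Qb (d q : ℕ) (x : Fin d → ℤ) (R : ℕ) : Finset (Fin d → ℤ) :=
  (bx d (-(R : ℤ)) R).image (fun j i => x i - q * j i)

private lemma card_bx (d R : ℕ) : ((bx d (-(R : ℤ)) R).card : ℝ) = (2 * (R : ℝ) + 1) ^ d := by
  unfold bx
  rw [Fintype.card_piFinset]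
  simp only [Int.card_Icc, Finset.prod_const, Finset.card_univ, Fintype.card_fin]
  have : (R : ℤ) + 1 - -(R : ℤ) = ((2 * R + 1 : ℕ) : ℤ) := by push_cast; ring
  rw [this, Int.toNat_natCast]
  push_cast
  ring

private lemma mem_bx {d : ℕ} {R : ℕ} {j : Fin d → ℤ} :
    j ∈ bx d (-(R : ℤ)) R ↔ ∀ i, |j i| ≤ R := by
  unfold bx
  rw [Fintype.mem_piFinset]
  exact forall_congr' fun i => by rw [Finset.mem_Icc, abs_le]

private lemma inj_q {d q : ℕ} (hq : 1 ≤ q) (x : Fin d → ℤ) :
    Function.Injective (fun (j : Fin d → ℤ) (i : Fin d) => x i - (q : ℤ) * j i) := by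
  intro j j' h
  funext i
  have h1 : x i - (q : ℤ) * j i = x i - (q : ℤ) * j' i := congrFun h i
  have h2 : (q : ℤ) * j i = (q : ℤ) * j' i := by linarith
  exact mul_left_cancel₀ (by exact_mod_cast (by omega : q ≠ 0)) h2

private lemma sum_Qb {d q : ℕ} (hq : 1 ≤ q) (x : Fin d → ℤ) (R : ℕ) (g : (Fin d → ℤ) → ℝ) :
    ∑ y ∈ Qb d q x R, g y = ∑ j ∈ bx d (-(R : ℤ)) R, g (fun i => x i - q * j i) := by
  classical
  unfold Qb
  rw [Finset.sum_image fun a _ b _ h => inj_q hq x h]

/-- weak type estimate along `q Z^d` -/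
private lemma weak {d q : ℕ} (hq : 1 ≤ q) (S : Finset (Fin d → ℤ)) {c : ℝ} (hc : 0 < c) :
    ∀ (n : ℕ) (X : Finset (Fin d → ℤ)) (g : (Fin d → ℤ) → ℝ), X.card = n → (∀ y, 0 ≤ g y) →
    (∀ y, y ∉ S → g y = 0) →
    (∀ x ∈ X, ∃ R : ℕ, c * (2 * (R : ℝ) + 1) ^ d < ∑ y ∈ Qb d q x R, g y) →
    (X.card : ℝ) ≤ 2 ^ d / c * ∑ y ∈ S, g y := by
  classical
  intro n
  induction n using Nat.strong_induction_on with
  | _ n ih =>
    intro X g hn hg hS hX
    rcases X.eq_empty_or_nonempty with rfl | hne
    · rw [Finset.card_empty, Nat.cast_zero]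
      exact mul_nonneg (by positivity) (Finset.sum_nonneg fun y _ => hg y)
    choose! R hR using hX
    obtain ⟨x0, hx0, hmax⟩ := X.exists_max_image R hne
    let Q0 := Qb d q x0 (R x0)
    let X' := X.filter (fun x => Disjoint (Qb d q x (R x)) Q0)
    let g' : (Fin d → ℤ) → ℝ := fun y => if y ∈ Q0 then 0 else g y
    have hx0' : x0 ∉ X' := by
      intro h
      have h1 := (Finset.mem_filter.1 h).2
      have h2 : (fun i => x0 i - (q : ℤ) * (0 : Fin d → ℤ) i) ∈ Q0 := by
        refine Finset.mem_image.2 ⟨0, mem_bx.2 fun i => ?_, rfl⟩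
        simp
      exact Finset.disjoint_left.1 h1 h2 h2
    have hlt : X'.card < n := by
      rw [← hn]
      exact Finset.card_lt_card ⟨Finset.filter_subset _ _, fun h => hx0' (h hx0)⟩
    have h1 : (X'.card : ℝ) ≤ 2 ^ d / c * ∑ y ∈ S, g' y := by
      refine ih _ hlt X' g' rfl ?_ ?_ ?_
      · intro y
        show 0 ≤ if y ∈ Q0 then 0 else g y
        split_ifs
        · exact le_rfl
        · exact hg y
      · intro y hy
        show (if y ∈ Q0 then 0 else g y) = 0
        split_ifs
        · rfl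
        · exact hS y hy
      · intro x hx
        obtain ⟨hxX, hx2⟩ := Finset.mem_filter.1 hx
        refine ⟨R x, ?_⟩
        have e : ∑ y ∈ Qb d q x (R x), g' y = ∑ y ∈ Qb d q x (R x), g y := by
          refine Finset.sum_congr rfl fun y hy => ?_
          exact if_neg (Finset.disjoint_left.1 hx2 hy)
        rw [e]
        exact hR x hxX
    have h2 : ((X.filter (fun x => ¬ Disjoint (Qb d q x (R x)) Q0)).card : ℝ) ≤
        2 ^ d / c * ∑ y ∈ Q0, g y := by
      have h3 : (X.filter (fun x => ¬ Disjoint (Qb d q x (R x)) Q0)) ⊆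
          Qb d q x0 (2 * R x0) := by
        intro x hx
        obtain ⟨hxX, hx2⟩ := Finset.mem_filter.1 hx
        obtain ⟨y, hy1, hy2⟩ := Finset.not_disjoint_iff.1 hx2
        obtain ⟨j, hj, rfl⟩ := Finset.mem_image.1 hy1
        obtain ⟨j', hj', h4⟩ := Finset.mem_image.1 hy2
        refine Finset.mem_image.2 ⟨fun i => j' i - j i, mem_bx.2 fun i => ?_, ?_⟩
        · have h5 := mem_bx.1 hj i
          have h6 := mem_bx.1 hj' i
          have h7 : (R x : ℤ) ≤ R x0 := by exact_mod_cast hmax x hxX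
          refine (abs_sub _ _).trans ?_
          push_cast
          linarith
        · funext i
          have h5 : x0 i - (q : ℤ) * j' i = x i - (q : ℤ) * j i := congrFun h4 i
          show x0 i - (q : ℤ) * (j' i - j i) = x i
          linarith
      have h4 := Finset.card_le_card h3
      have h5 : (Qb d q x0 (2 * R x0)).card ≤ (bx d (-((2 * R x0 : ℕ) : ℤ)) ((2 * R x0 : ℕ) : ℤ)).card :=
        Finset.card_image_le
      have h6 : ((X.filter (fun x => ¬ Disjoint (Qb d q x (R x)) Q0)).card : ℝ) ≤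
          (2 * ((2 * R x0 : ℕ) : ℝ) + 1) ^ d := by
        rw [← card_bx d (2 * R x0)]
        exact_mod_cast h4.trans h5
      refine h6.trans ?_
      have h7 := (hR x0 hx0).le
      have h8 : (2 * ((2 * R x0 : ℕ) : ℝ) + 1) ^ d ≤ (2 * (2 * (R x0 : ℝ) + 1)) ^ d := by
        refine pow_le_pow_left₀ (by positivity) ?_ d
        push_cast
        linarith
      refine h8.trans ?_
      rw [mul_pow, div_mul_eq_mul_div, le_div_iff₀ hc]
      calc (2 : ℝ) ^ d * (2 * (R x0 : ℝ) + 1) ^ d * c
          = 2 ^ d * (c * (2 * (R x0 : ℝ) + 1) ^ d) := by ring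
        _ ≤ 2 ^ d * ∑ y ∈ Q0, g y := mul_le_mul_of_nonneg_left h7 (by positivity)
    have h9 : (X.card : ℝ) = (X'.card : ℝ) +
        ((X.filter (fun x => ¬ Disjoint (Qb d q x (R x)) Q0)).card : ℝ) := by
      rw [← Nat.cast_add, Finset.card_filter_add_card_filter_not]
    have h10 : ∑ y ∈ S, g' y + ∑ y ∈ Q0, g y = ∑ y ∈ S, g y := by
      have e1 : ∑ y ∈ Q0, g y = ∑ y ∈ S, (if y ∈ Q0 then g y else 0) := by
        rw [← Finset.sum_filter]
        symm
        refine Finset.sum_subset (fun y hy => (Finset.mem_filter.1 hy).2) ?_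
        intro y hy hy2
        refine hS y fun h => hy2 (Finset.mem_filter.2 ⟨h, hy⟩)
      rw [e1, ← Finset.sum_add_distrib]
      refine Finset.sum_congr rfl fun y _ => ?_
      show (if y ∈ Q0 then 0 else g y) + (if y ∈ Q0 then g y else 0) = g y
      split_ifs
      · rw [zero_add]
      · rw [add_zero]
    rw [h9, ← h10, mul_add]
    exact add_le_add h1 h2

/-- geometric sums below a threshold -/
private lemma geo {ε B : ℝ} (hε : 0 < ε) (hB : 0 ≤ B) (M : ℕ) :
    (∑ i ∈ Finset.range M, if 2 ^ i * ε < B then 2 ^ i * ε else 0) ≤ 2 ^ M * ε ∧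
    (∑ i ∈ Finset.range M, if 2 ^ i * ε < B then 2 ^ i * ε else 0) ≤ 2 * B := by
  induction M with
  | zero => simp only [Finset.range_zero, Finset.sum_empty]; constructor <;> positivity
  | succ M ih =>
    rw [Finset.sum_range_succ]
    split_ifs with h
    · have h1 : (2 : ℝ) ^ (M + 1) * ε = 2 * (2 ^ M * ε) := by ring
      constructor
      · linarith [ih.1]
      · linarith [ih.1]
    · have h1 : (2 : ℝ) ^ (M + 1) * ε = 2 * (2 ^ M * ε) := by ring
      have h2 : (0 : ℝ) ≤ 2 ^ M * ε := by positivity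
      constructor
      · linarith [ih.1]
      · linarith [ih.2]

/-- a number is controlled by the dyadic levels below it -/
private lemma lev {ε A : ℝ} (hε : 0 < ε) (M : ℕ) (hM : A ≤ 2 ^ M * ε) (hA : 0 ≤ A) :
    A ^ 2 ≤ ε ^ 2 + 4 * ∑ i ∈ Finset.range M, if 2 ^ i * ε < A then (2 ^ i * ε) ^ 2 else 0 := by
  induction M with
  | zero =>
    simp only [Finset.range_zero, Finset.sum_empty, mul_zero, add_zero]
    rw [pow_zero, one_mul] at hM
    exact pow_le_pow_left₀ hA hM 2
  | succ M ih =>
    rw [Finset.sum_range_succ]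
    by_cases h : A ≤ 2 ^ M * ε
    · refine (ih h).trans ?_
      have : (0 : ℝ) ≤ if 2 ^ M * ε < A then (2 ^ M * ε) ^ 2 else 0 := by
        split_ifs <;> positivity
      linarith
    · rw [not_le] at h
      rw [if_pos h]
      have h1 : (0 : ℝ) ≤ ∑ i ∈ Finset.range M, if 2 ^ i * ε < A then (2 ^ i * ε) ^ 2 else 0 := by
        refine Finset.sum_nonneg fun i _ => ?_
        split_ifs <;> positivity
      have h2 : A ^ 2 ≤ (2 ^ (M + 1) * ε) ^ 2 := pow_le_pow_left₀ hA hM 2
      have h3 : ((2 : ℝ) ^ (M + 1) * ε) ^ 2 = 4 * (2 ^ M * ε) ^ 2 := by ring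
      have h4 : 0 ≤ ε ^ 2 := by positivity
      rw [h3] at h2
      linarith

theorem ks_HLQ (_hHL : T_HL) : T_HLQ := by
  classical
  intro d
  refine ⟨2 ^ (d + 5), by positivity, ?_⟩
  intro q g S X J hq hg hS
  set A : (Fin d → ℤ) → ℝ := fun x => avq q (J x) g x with hAdef
  have hA0 : ∀ x, 0 ≤ A x := by
    intro x
    show 0 ≤ avq q (J x) g x
    unfold avq
    exact mul_nonneg (by positivity) (Finset.sum_nonneg fun j _ => hg _)
  -- weak type estimate with the large part only
  have hw : ∀ lam : ℝ, 0 < lam → ((X.filter (fun x => lam < A x)).card : ℝ) ≤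
      2 ^ (d + 1) / lam * ∑ y ∈ S, (if lam / 2 < g y then g y else 0) := by
    intro lam hlam
    have h1 := weak hq S (half_pos hlam) _ (X.filter (fun x => lam < A x))
      (fun y => if lam / 2 < g y then g y else 0) rfl
      (fun y => by
        show 0 ≤ if lam / 2 < g y then g y else 0
        split_ifs
        · exact hg y
        · exact le_rfl)
      (fun y hy => by
        show (if lam / 2 < g y then g y else 0) = 0
        rw [hS y hy]
        split_ifs <;> rfl) ?_
    · have e : (2 : ℝ) ^ (d + 1) / lam = 2 ^ d / (lam / 2) := by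
        field_simp
        ring
      rw [e]
      exact h1
    · intro x hx
      refine ⟨J x, ?_⟩
      have hx2 := (Finset.mem_filter.1 hx).2
      rw [sum_Qb hq]
      have hp : (0 : ℝ) < (2 * (J x : ℝ) + 1) ^ d := by positivity
      have h2 : lam * (2 * (J x : ℝ) + 1) ^ d <
          ∑ j ∈ bx d (-(J x : ℤ)) (J x), g (fun i => x i - q * j i) := by
        have h3 : lam < avq q (J x) g x := hx2
        unfold avq at h3
        rw [one_div, inv_mul_eq_div, lt_div_iff₀ hp] at h3
        exact h3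
      have h4 : ∑ j ∈ bx d (-(J x : ℤ)) (J x), g (fun i => x i - q * j i) ≤
          ∑ j ∈ bx d (-(J x : ℤ)) (J x), ((if lam / 2 < g (fun i => x i - q * j i) then
            g (fun i => x i - q * j i) else 0) + lam / 2) := by
        refine Finset.sum_le_sum fun j _ => ?_
        split_ifs with h
        · linarith
        · rw [not_lt] at h
          linarith
      rw [Finset.sum_add_distrib, Finset.sum_const, nsmul_eq_mul, card_bx] at h4
      nlinarith [h2, h4]
  -- the estimate with an error term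
  have hmain : ∀ ε : ℝ, 0 < ε → ∑ x ∈ X, (A x) ^ 2 ≤
      X.card * ε ^ 2 + 2 ^ (d + 5) * ∑ y ∈ S, (g y) ^ 2 := by
    intro ε hε
    obtain ⟨M, hM⟩ := pow_unbounded_of_one_lt ((∑ x ∈ X, A x) / ε) (one_lt_two : (1 : ℝ) < 2)
    have hM2 : ∀ x ∈ X, A x ≤ 2 ^ M * ε := by
      intro x hx
      rw [div_lt_iff₀ hε] at hM
      exact (Finset.single_le_sum (fun x _ => hA0 x) hx).trans hM.le
    calc ∑ x ∈ X, (A x) ^ 2
        ≤ ∑ x ∈ X, (ε ^ 2 + 4 * ∑ i ∈ Finset.range M,
            if 2 ^ i * ε < A x then (2 ^ i * ε) ^ 2 else 0) :=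
          Finset.sum_le_sum fun x hx => lev hε M (hM2 x hx) (hA0 x)
      _ = X.card * ε ^ 2 + 4 * ∑ i ∈ Finset.range M,
            (2 ^ i * ε) ^ 2 * ((X.filter (fun x => 2 ^ i * ε < A x)).card : ℝ) := by
          rw [Finset.sum_add_distrib, Finset.sum_const, nsmul_eq_mul, ← Finset.mul_sum,
            Finset.sum_comm]
          congr 2
          refine Finset.sum_congr rfl fun i _ => ?_
          rw [← Finset.sum_filter, Finset.sum_const, nsmul_eq_mul, mul_comm]
      _ ≤ X.card * ε ^ 2 + 4 * ∑ i ∈ Finset.range M,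
            (2 ^ i * ε) * (2 ^ (d + 1) * ∑ y ∈ S, (if 2 ^ i * ε / 2 < g y then g y else 0)) := by
          refine add_le_add le_rfl (mul_le_mul_of_nonneg_left (Finset.sum_le_sum fun i _ => ?_)
            (by norm_num))
          have hpos : (0 : ℝ) < 2 ^ i * ε := by positivity
          have h1 := hw (2 ^ i * ε) hpos
          calc (2 ^ i * ε) ^ 2 * ((X.filter (fun x => 2 ^ i * ε < A x)).card : ℝ)
              ≤ (2 ^ i * ε) ^ 2 * (2 ^ (d + 1) / (2 ^ i * ε) *
                ∑ y ∈ S, (if 2 ^ i * ε / 2 < g y then g y else 0)) :=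
                mul_le_mul_of_nonneg_left h1 (by positivity)
            _ = (2 ^ i * ε) * (2 ^ (d + 1) *
                ∑ y ∈ S, (if 2 ^ i * ε / 2 < g y then g y else 0)) := by
                field_simp
      _ = X.card * ε ^ 2 + 4 * (2 ^ (d + 1) * ∑ y ∈ S, g y *
            ∑ i ∈ Finset.range M, (if 2 ^ i * ε < 2 * g y then 2 ^ i * ε else 0)) := by
          congr 2
          have e1 : ∀ i, (2 ^ i * ε) * (2 ^ (d + 1) * ∑ y ∈ S,
              (if 2 ^ i * ε / 2 < g y then g y else 0)) =
              2 ^ (d + 1) * ∑ y ∈ S, g y * (if 2 ^ i * ε < 2 * g y then 2 ^ i * ε else 0) := by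
            intro i
            rw [mul_left_comm, Finset.mul_sum]
            congr 1
            refine Finset.sum_congr rfl fun y _ => ?_
            by_cases h : 2 ^ i * ε < 2 * g y
            · rw [if_pos h, if_pos (by linarith), mul_comm]
            · rw [if_neg h, if_neg (by intro h2; exact h (by linarith)), mul_zero, mul_zero]
          simp only [e1]
          rw [← Finset.mul_sum, Finset.sum_comm]
          simp only [Finset.mul_sum]
      _ ≤ X.card * ε ^ 2 + 4 * (2 ^ (d + 1) * ∑ y ∈ S, g y * (2 * (2 * g y))) := by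
          refine add_le_add le_rfl (mul_le_mul_of_nonneg_left (mul_le_mul_of_nonneg_left
            (Finset.sum_le_sum fun y _ => mul_le_mul_of_nonneg_left
              (geo hε (by linarith [hg y]) M).2 (hg y)) (by positivity)) (by norm_num))
      _ = X.card * ε ^ 2 + 2 ^ (d + 5) * ∑ y ∈ S, (g y) ^ 2 := by
          have e2 : ∑ y ∈ S, g y * (2 * (2 * g y)) = 4 * ∑ y ∈ S, (g y) ^ 2 := by
            rw [Finset.mul_sum]
            refine Finset.sum_congr rfl fun y _ => ?_
            ring
          rw [e2]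
          ring
  -- let `ε` tend to zero
  show ∑ x ∈ X, (A x) ^ 2 ≤ _
  refine le_of_forall_pos_le_add fun η hη => ?_
  have hX0 : (0 : ℝ) < X.card + 1 := by positivity
  have h1 := hmain (Real.sqrt (η / (X.card + 1))) (Real.sqrt_pos.2 (div_pos hη hX0))
  rw [Real.sq_sqrt (div_pos hη hX0).le] at h1
  have h2 : (X.card : ℝ) * (η / (X.card + 1)) ≤ η := by
    rw [mul_div_assoc', div_le_iff₀ hX0]
    nlinarith
  linarith

end Pool.Agent.H65.KS
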